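import Pool.Agent.Helper13.Fish.Final
import Pool.Agent.Helper34.FishPerm
set_option autoImplicit false

/-!
# Fishburn permutations avoiding 3214, 4132 or 4213

`Fishburn π` says that the permutation `π` has no positions `i` and `j > i + 1` with
`π j + 1 = π i < π (i + 1)`; `HasPattern σ π` says that some subsequence of `π` is order isomorphic
to the word `σ`; `F n σ` is the set of Fishburn permutations of `Fin n` without the pattern `σ`.
Positions and values are counted from `0` to `n - 1`.
-/

namespace Pool.Agent.Results.MP_e853da_co.WilfTriple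

/-- `π` contains the pattern `σ`: there are positions `f 0 < f 1 < …` at which the values of `π`
are ordered in the same way as the letters of `σ`. -/
def HasPattern {k n : ℕ} (σ : Fin k → ℕ) (π : Equiv.Perm (Fin n)) : Prop :=
  ∃ f : Fin k → Fin n, StrictMono f ∧ ∀ a b, σ a < σ b ↔ π (f a) < π (f b)

/-- `π` is a Fishburn permutation: there are no positions `i`, `i' = i + 1` and `j > i + 1` with
`π j + 1 = π i` and `π i < π i'`. -/
def Fishburn {n : ℕ} (π : Equiv.Perm (Fin n)) : Prop :=
  ¬ ∃ i i' j : Fin n, (i' : ℕ) = i + 1 ∧ (i : ℕ) + 1 < j ∧ (π j : ℕ) + 1 = π i ∧ π i < π i'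

open Classical in
/-- The set of Fishburn permutations of `n` letters that avoid `σ`. -/
noncomputable def F (n : ℕ) {k : ℕ} (σ : Fin k → ℕ) : Finset (Equiv.Perm (Fin n)) :=
  Finset.univ.filter fun π => Fishburn π ∧ ¬ HasPattern σ π

/-- For every `n` the sets `F n 3214`, `F n 4132` and `F n 4213` have the same size. -/
theorem result (n : ℕ) :
    (F n ![3, 2, 1, 4]).card = (F n ![4, 1, 3, 2]).card ∧
      (F n ![4, 1, 3, 2]).card = (F n ![4, 2, 1, 3]).card := by
  have hF : ∀ (σ : Fin 4 → ℕ), (F n σ).card = (Helper13.Fish.FS n σ).card := fun _ => rfl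
  rw [hF, hF, hF, Helper13.Fish.card_A, Helper13.Fish.card_B, Helper13.Fish.card_C]
  exact ⟨Helper13.Fish.cnt_AC n, (Helper13.Fish.cnt_BC n).symm⟩

end Pool.Agent.Results.MP_e853da_co.WilfTriple
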